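import Pool.Agent.Lib.MP_40f35d_gt.Dn.Tr

/-!
# Bounded readings make `K` weakly chainable

* `dn`: if for every `x` in `K` and every `m` there is a chain of points of `K` from `z` to `x` which
  is read, for every `n ≤ m`, by a word of bounded length in finitely many places of level `n`, then
  `K` is weakly chainable.
-/

set_option autoImplicit false

open Set Topology

namespace Pool.Agent.Lib.MP_40f35d_gt.Dn

open Pool.Agent.Lib.MP_40f35d_gt.H

/-- Long words with points give a chainable continuum which is mapped onto `K`. -/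
theorem wc_of_words {E : Type} [MetricSpace E] (K : Set E) (hK : IsCompact K) (e : ℕ → ℝ)
    (he : Summable e) (L : ℕ → List ℕ) (hlen : ∀ n, 2 ≤ (L n).length) (P : ℕ → ℕ → E)
    (r : ℕ → ℕ → ℕ) (hP : ∀ n, ∀ i ∈ L n, P n i ∈ K)
    (hrd : ∀ n, Rd (L n) ((L (n + 1)).map (r n)) 0 ((L n).length - 1))
    (hch : ∀ n, (L n).IsChain fun i j => dist (P n i) (P n j) ≤ e n)
    (hr : ∀ n, ∀ i ∈ L (n + 1), dist (P (n + 1) i) (P n (r n i)) ≤ e n)
    (hd : ∀ y ∈ K, ∀ n, ∃ i ∈ L n, dist y (P n i) ≤ e n) : WC K := by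
  classical
  choose s hs0 hsl hsm hsn using fun n => (hrd n).fn
  set lab : ℕ → ℕ → ℕ := fun n i => ((L n)[i]?).getD 0 with hlab
  have hlab' : ∀ n i, i < (L n).length → (L n)[i]? = some (lab n i) := by
    intro n i hi
    rw [hlab]
    simp [hi]
  have hlabm : ∀ n i, i < (L n).length → lab n i ∈ L n := fun n i hi =>
    List.mem_of_getElem? (hlab' n i hi)
  refine tower K hK e he (fun n => (L n).length - 1)
    (fun n => by have := hlen n; omega) (fun n i => P n (lab n i)) ?_ s ?_ ?_ hs0 ?_ ?_ ?_ ?_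
  · intro n i hi
    have h1 := hlen n
    exact hP n _ (hlabm n i (by omega))
  · intro n i hi
    have h1 := hlen (n + 1)
    have h2 := (hsm n i (by rw [List.length_map]; omega)).1
    omega
  · intro n i hi
    exact hsn n i (by rw [List.length_map]; omega)
  · intro n
    have := hsl n
    rw [List.length_map] at this
    exact this
  · intro n i hi
    have hi1 : i + 1 < (L n).length := by omega
    have hi0 : i < (L n).length := by omega
    have h3 := List.isChain_iff_getElem.1 (hch n) i hi1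
    have e0 : (L n)[i] = lab n i := by
      have := hlab' n i hi0
      rw [List.getElem?_eq_getElem hi0] at this
      exact Option.some.inj this
    have e1 : (L n)[i + 1] = lab n (i + 1) := by
      have := hlab' n (i + 1) hi1
      rw [List.getElem?_eq_getElem hi1] at this
      exact Option.some.inj this
    rw [e0, e1] at h3
    exact h3
  · intro n i hi
    have h1 := hlen (n + 1)
    have hi1 : i < (L (n + 1)).length := by omega
    obtain ⟨h2, h3⟩ := hsm n i (by rw [List.length_map]; omega)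
    rw [List.getElem?_map, hlab' (n + 1) i hi1, hlab' n _ h2] at h3
    simp only [Option.map_some, Option.some.injEq] at h3
    rw [h3]
    exact hr n _ (hlabm (n + 1) i hi1)
  · intro y hy n
    obtain ⟨i, hiL, hi⟩ := hd y hy n
    obtain ⟨k, hk, hki⟩ := List.mem_iff_getElem.1 hiL
    refine ⟨k, by omega, ?_⟩
    have e0 : lab n k = i := by
      have := hlab' n k hk
      rw [List.getElem?_eq_getElem hk, hki] at this
      exact (Option.some.inj this).symm
    rw [e0]
    exact hi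

/-- The walk `p`, with the times `0, ..., k`, is read by a word of length `≤ B` in the places
`c 0, ..., c (N - 1)` with the error `e`. -/
def Rk {E : Type} [MetricSpace E] (k : ℕ) (p : ℕ → E) (c : ℕ → E) (N B : ℕ) (e : ℝ)
    (W : List ℕ) : Prop :=
  W.length ≤ B ∧ W ≠ [] ∧ (∀ l ∈ W, l < N) ∧ ∃ (L : ℕ) (a t : ℕ → ℕ), Wk a L k ∧
    Wk t L (W.length - 1) ∧ ∀ r, r ≤ L → ∃ l, W[t r]? = some l ∧ dist (p (a r)) (c l) ≤ e

/-- The good words of one level. -/
structure Gd {E : Type} [MetricSpace E] (K : Set E) (z : E) (c : ℕ → E) (N B : ℕ) (e : ℝ)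
    (W : List ℕ) : Prop where
  len : W.length ≤ B
  ne : W ≠ []
  lt : ∀ l ∈ W, l < N
  mem : ∀ l ∈ W, ∃ y ∈ K, dist y (c l) ≤ e
  chain : W.IsChain fun l l' => dist (c l) (c l') ≤ 3 * e
  head : ∃ l, W[0]? = some l ∧ dist z (c l) ≤ e

/-- The word ends at `x`. -/
def Endw {E : Type} [MetricSpace E] (c : ℕ → E) (e : ℝ) (W : List ℕ) (x : E) : Prop :=
  ∃ l, W[W.length - 1]? = some l ∧ dist x (c l) ≤ e

theorem rk_gd {E : Type} [MetricSpace E] {K : Set E} {k : ℕ} {p : ℕ → E} {c : ℕ → E} {N B : ℕ}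
    {e : ℝ} {W : List ℕ} (he : 0 ≤ e) (hp : ∀ i, i ≤ k → p i ∈ K)
    (hd : ∀ i, i < k → dist (p i) (p (i + 1)) ≤ e) (h : Rk k p c N B e W) :
    Gd K (p 0) c N B e W ∧ Endw c e W (p k) := by
  obtain ⟨h1, h2, h3, L, a, t, ha, ht, h4⟩ := h
  have hlen : 0 < W.length := List.length_pos_iff.2 h2
  have hnr : ∀ i j, i ≤ k → j ≤ k → Nr i j → dist (p i) (p j) ≤ e := by
    intro i j hi hj hij
    obtain ⟨g1, g2⟩ := hij
    rcases lt_trichotomy i j with g | g | g
    · have e1 : j = i + 1 := by omega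
      subst e1
      exact hd i (by omega)
    · subst g
      rw [dist_self]
      exact he
    · have e1 : i = j + 1 := by omega
      subst e1
      rw [dist_comm]
      exact hd j (by omega)
  refine ⟨⟨h1, h2, h3, ?_, ?_, ?_⟩, ?_⟩
  · intro l hl
    obtain ⟨i, hi, hil⟩ := List.mem_iff_getElem.1 hl
    obtain ⟨r, hr, hri⟩ := ht.hit (i := i) (by omega)
    obtain ⟨l', h5, h6⟩ := h4 r hr
    rw [hri, List.getElem?_eq_getElem hi, hil] at h5
    cases h5
    exact ⟨p (a r), hp _ (ha.le r hr), h6⟩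
  · refine List.isChain_iff_getElem.2 fun i hi => ?_
    obtain ⟨r, hr, hr1, hr2⟩ := ht.cross (i := i) (by omega)
    obtain ⟨l, h5, h6⟩ := h4 r hr.le
    obtain ⟨l', h7, h8⟩ := h4 (r + 1) hr
    rw [hr1, List.getElem?_eq_getElem (by omega)] at h5
    rw [hr2, List.getElem?_eq_getElem hi] at h7
    have h9 := hnr _ _ (ha.le r hr.le) (ha.le (r + 1) hr) (ha.nr r hr)
    have e1 := Option.some.inj h5
    have e2 := Option.some.inj h7
    rw [e1, e2]
    have d1 := dist_triangle4 (c l) (p (a r)) (p (a (r + 1))) (c l')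
    rw [dist_comm] at h6
    linarith
  · obtain ⟨l, h5, h6⟩ := h4 0 (Nat.zero_le _)
    rw [ht.st] at h5
    rw [ha.st] at h6
    exact ⟨l, h5, h6⟩
  · obtain ⟨l, h5, h6⟩ := h4 L le_rfl
    rw [ht.en] at h5
    rw [ha.en] at h6
    exact ⟨l, h5, h6⟩

theorem rk_lk {E : Type} [MetricSpace E] {k : ℕ} {p : ℕ → E} {c c' : ℕ → E} {N B N' B' : ℕ}
    {e e' : ℝ} {W W' : List ℕ} (h : Rk k p c N B e W) (h' : Rk k p c' N' B' e' W') :
    Lk (fun l l' => dist (c l) (c' l') ≤ e + e') W W' := by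
  obtain ⟨-, -, -, L, a, t, ha, ht, h4⟩ := h
  obtain ⟨-, -, -, L', a', t', ha', ht', h4'⟩ := h'
  obtain ⟨M, s, s', hs, hs', he⟩ := ha.climb ha'
  refine ⟨M, _, _, ht.comp hs, ht'.comp hs', fun j hj => ?_⟩
  obtain ⟨l, h5, h6⟩ := h4 (s j) (hs.le j hj)
  obtain ⟨l', h7, h8⟩ := h4' (s' j) (hs'.le j hj)
  refine ⟨l, l', h5, h7, ?_⟩
  rw [he j hj] at h6
  exact (dist_triangle_left _ _ _).trans (add_le_add h6 h8)

theorem chain_nr {Q : ℕ → ℕ → Prop} {W : List ℕ} (hW : W.IsChain Q) (hs : ∀ i j, Q i j → Q j i)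
    (hr : ∀ i, Q i i) {i j l l' : ℕ} (hi : W[i]? = some l) (hj : W[j]? = some l')
    (hn : Nr i j) : Q l l' := by
  obtain ⟨hi1, hi2⟩ := List.getElem?_eq_some_iff.1 hi
  obtain ⟨hj1, hj2⟩ := List.getElem?_eq_some_iff.1 hj
  obtain ⟨g1, g2⟩ := hn
  subst hi2
  subst hj2
  rcases lt_trichotomy i j with g | g | g
  · have e1 : j = i + 1 := by omega
    subst e1
    exact List.isChain_iff_getElem.1 hW i hj1
  · subst g
    exact hr _
  · have e1 : i = j + 1 := by omega
    subst e1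
    exact hs _ _ (List.isChain_iff_getElem.1 hW j hi1)

/-- **Bounded readings make `K` weakly chainable.** -/
theorem dn {E : Type} [MetricSpace E] (K : Set E) (hK : IsCompact K) (z : E) (hz : z ∈ K)
    (eps : ℕ → ℝ) (hs : Summable eps) (h0 : ∀ n, 0 ≤ eps n) (c : ℕ → ℕ → E) (N B : ℕ → ℕ)
    (H : ∀ x ∈ K, ∀ m : ℕ, ∃ (k : ℕ) (p : ℕ → E), (∀ i, i ≤ k → p i ∈ K) ∧ p 0 = z ∧ p k = x ∧
      (∀ i, i < k → ∀ n, n ≤ m → dist (p i) (p (i + 1)) ≤ eps n) ∧
        ∀ n, n ≤ m → ∃ W, Rk k p (c n) (N n) (B n) (eps n) W) : WC K := by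
  classical
  set R : ℕ → ℕ → ℕ → Prop := fun n l l' => dist (c n l) (c (n + 1) l') ≤ eps n + eps (n + 1)
    with hR
  set G : ℕ → Set (List ℕ) := fun n => {W | Gd K z (c n) (N n) (B n) (eps n) W} with hG
  have hGfin : ∀ n, (G n).Finite := by
    intro n
    refine (finite_words (B n) (N n)).subset ?_
    intro W hW
    exact ⟨hW.len, hW.lt⟩
  set Th : Set (ℕ → List ℕ) := {ω | ∀ n, ω n ∈ G n ∧ Lk (R n) (ω n) (ω (n + 1))} with hTh
  have hthr : ∀ x ∈ K, ∃ ω ∈ Th, ∀ n, Endw (c n) (eps n) (ω n) x := by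
    intro x hx
    obtain ⟨ω, h1, h2⟩ := konig (fun n => {W | W ∈ G n ∧ Endw (c n) (eps n) W x})
      (fun n => (hGfin n).subset fun W hW => hW.1) (fun n => Lk (R n)) (by
        intro m
        obtain ⟨k, p, hp1, hp2, hp3, hp4, hp5⟩ := H x hx m
        choose! ω hω using hp5
        refine ⟨ω, fun n hn => ?_, fun n hn => ?_⟩
        · have h1 := rk_gd (h0 n) hp1 (fun i hi => hp4 i hi n hn) (hω n hn)
          rw [hp2, hp3] at h1
          exact h1
        · exact rk_lk (hω n (by omega)) (hω (n + 1) (by omega)))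
    exact ⟨ω, fun n => ⟨(h1 n).1, h2 n⟩, fun n => (h1 n).2⟩
  obtain ⟨S, β, ρ, hβ, hρ⟩ := exists_dat R
  set A : ℕ → Set (List (List ℕ)) := fun n => (fun ω => pf ω n) '' Th with hA
  have hAfin : ∀ n, (A n).Finite := by
    intro n
    refine (pf_finite G hGfin n).subset ?_
    rintro _ ⟨ω, hω, rfl⟩
    exact ⟨ω, fun k _ => (hω k).1, rfl⟩
  have hAne : ∀ n, (A n).Nonempty := by
    intro n
    obtain ⟨ω, hω, -⟩ := hthr z hz
    exact ⟨pf ω n, ω, hω, rfl⟩
  have hAΨ : ∀ n, List.tail '' A (n + 1) = A n := by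
    intro n
    ext σ
    constructor
    · rintro ⟨_, ⟨ω, hω, rfl⟩, rfl⟩
      exact ⟨ω, hω, rfl⟩
    · rintro ⟨ω, hω, rfl⟩
      exact ⟨pf ω (n + 1), ⟨ω, hω, rfl⟩, rfl⟩
  obtain ⟨O, ch, hO, hOc, hc⟩ := ordered A hAfin (hAne 0) (fun _ => List.tail) hAΨ
  have hOne : ∀ n, O n ≠ [] := by
    intro n hn
    obtain ⟨τ, hτ⟩ := hAne n
    have := (hO n τ).2 hτ
    rw [hn] at this
    exact absurd this List.not_mem_nil
  -- the codes of the positions
  set cd : List (List ℕ) → ℕ → ℕ := fun π t => Encodable.encode (π, t) with hcd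
  obtain ⟨ltr, hltr⟩ : ∃ ltr : ℕ → ℕ, ∀ π t, ltr (cd π t) = ((π.headD [])[β π t]?).getD 0 := by
    refine ⟨fun i => match (Encodable.decode i : Option (List (List ℕ) × ℕ)) with
      | some (π, t) => ((π.headD [])[β π t]?).getD 0
      | none => 0, fun π t => ?_⟩
    simp only [hcd, Encodable.encodek]
  obtain ⟨r, hr⟩ : ∃ r : ℕ → ℕ, ∀ π t, r (cd π t) = cd π.tail (ρ π t) := by
    refine ⟨fun i => match (Encodable.decode i : Option (List (List ℕ) × ℕ)) with
      | some (π, t) => cd π.tail (ρ π t)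
      | none => 0, fun π t => ?_⟩
    simp only [hcd, Encodable.encodek]
  set w : List (List ℕ) → List ℕ := fun π => (List.range (S π + 1)).map (cd π) with hw
  have hwlen : ∀ π, (w π).length = S π + 1 := by
    intro π
    rw [hw]
    simp
  have hwne : ∀ π, w π ≠ [] := by
    intro π h
    have := hwlen π
    rw [h] at this
    simp at this
  have hwget : ∀ π t, t ≤ S π → (w π)[t]? = some (cd π t) := by
    intro π t ht
    rw [hw]
    simp only [List.getElem?_map]
    rw [List.getElem?_range (by omega)]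
    rfl
  have hwmem : ∀ π i, i ∈ w π → ∃ t, t ≤ S π ∧ cd π t = i := by
    intro π i hi
    rw [hw] at hi
    simp only [List.mem_map, List.mem_range] at hi
    obtain ⟨t, h1, h2⟩ := hi
    exact ⟨t, by omega, h2⟩
  -- the members of `A n`
  have hAn : ∀ n, ∀ π ∈ A n, ∃ W, W ∈ G n ∧ Wk (β π) (S π) (W.length - 1) ∧
      ∀ t, t ≤ S π → W[β π t]? = some (ltr (cd π t)) := by
    rintro n _ ⟨ω, hω, rfl⟩
    obtain ⟨π0, h1, h2⟩ := pf_cons ω n
    have h3 := pf_gp (R := R) (fun n => (hω n).2) n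
    simp only
    rw [h1] at h3 ⊢
    have h4 := hβ (ω n) π0 h3
    refine ⟨ω n, (hω n).1, h4, fun t ht => ?_⟩
    have h5 := h4.le t ht
    have h6 : 0 < (ω n).length := List.length_pos_iff.2 (hω n).1.ne
    rw [hltr, List.headD_cons, List.getElem?_eq_getElem (by omega)]
    rfl
  have hAB : ∀ n, ∀ π ∈ A (n + 1), Wk (ρ π) (S π) (S π.tail) ∧
      ∀ t, t ≤ S π → R n (ltr (cd π.tail (ρ π t))) (ltr (cd π t)) := by
    rintro n _ ⟨ω, hω, rfl⟩
    obtain ⟨π0, h1, h2⟩ := pf_cons ω n
    have h3 := pf_gp (R := R) (fun n => (hω n).2) (n + 1)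
    simp only
    rw [pf, h1] at h3 ⊢
    obtain ⟨h4, h5, h6⟩ := hρ (ω (n + 1)) (ω n) π0 h3
    refine ⟨h4, fun t ht => ?_⟩
    obtain ⟨l, l', h7, h8, h9⟩ := h6 t ht
    rw [h2] at h9
    rw [List.tail_cons, hltr, hltr, List.headD_cons, List.headD_cons, h7, h8]
    exact h9
  set L : ℕ → List ℕ := fun n => (O n).flatMap fun σ => w σ ++ (w σ).reverse with hL
  have hmem : ∀ n i, i ∈ L n → ∃ π ∈ A n, ∃ t, t ≤ S π ∧ cd π t = i := by
    intro n i hi
    rw [hL] at hi
    simp only [List.mem_flatMap, List.mem_append, List.mem_reverse, or_self] at hi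
    obtain ⟨π, hπ, hiπ⟩ := hi
    obtain ⟨t, h1, h2⟩ := hwmem π i hiπ
    exact ⟨π, (hO n π).1 hπ, t, h1, h2⟩
  -- the points
  have hpt' : ∀ n l, ∃ y : E, y ∈ K ∧ ((∃ y ∈ K, dist y (c n l) ≤ eps n) →
      dist y (c n l) ≤ eps n) := by
    intro n l
    by_cases h : ∃ y ∈ K, dist y (c n l) ≤ eps n
    · obtain ⟨y, h1, h2⟩ := h
      exact ⟨y, h1, fun _ => h2⟩
    · exact ⟨z, hz, fun h1 => absurd h1 h⟩
  choose pt hptK hpt using hpt'
  have hptd : ∀ n, ∀ π ∈ A n, ∀ t, t ≤ S π →
      dist (pt n (ltr (cd π t))) (c n (ltr (cd π t))) ≤ eps n := by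
    intro n π hπ t ht
    obtain ⟨W, h1, -, h3⟩ := hAn n π hπ
    exact hpt n _ (h1.mem _ (List.mem_of_getElem? (h3 t ht)))
  refine wc_of_words K hK (fun n => 5 * eps n + 2 * eps (n + 1)) ?_ L ?_
    (fun n i => pt n (ltr i)) (fun _ => r) (fun n i _ => hptK n _) ?_ ?_ ?_ ?_
  · exact (hs.mul_left 5).add (((summable_nat_add_iff 1).2 hs).mul_left 2)
  · intro n
    obtain ⟨σ, O', hσ⟩ : ∃ σ O', O n = σ :: O' := List.exists_cons_of_ne_nil (hOne n)
    have h3 : L n = (w σ ++ (w σ).reverse) ++ O'.flatMap fun σ => w σ ++ (w σ).reverse := by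
      rw [hL]
      simp only [hσ, List.flatMap_cons]
    rw [h3]
    simp only [List.length_append, List.length_reverse, hwlen]
    omega
  · intro n
    have h1 : L (n + 1) = ((O n).flatMap (ch n)).flatMap fun σ => w σ ++ (w σ).reverse := by
      rw [hL]
      simp only [hOc n]
    rw [h1]
    refine rd_long' r w (O n) (hOne n) (ch n) ?_
    intro τ hτ
    obtain ⟨h2, h3⟩ := hc n τ ((hO n τ).1 hτ)
    refine ⟨hwne τ, h2, fun τ' hτ' => ⟨hwne τ', ?_⟩⟩
    obtain ⟨h4, h5⟩ := h3 τ' hτ'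
    obtain ⟨h6, -⟩ := hAB n τ' h5
    rw [h4] at h6
    have h7 := rd_walk (W := w τ) (fun t => cd τ (ρ τ' t)) (ρ τ') (S τ')
      (fun t ht => hwget τ _ (h6.le t ht)) h6.nr
    rw [h6.st, h6.en] at h7
    have h8 : (w τ').map r = (List.range (S τ' + 1)).map fun t => cd τ (ρ τ' t) := by
      rw [hw]
      simp only [List.map_map]
      refine List.map_congr_left fun t _ => ?_
      rw [Function.comp_apply, hr, h4]
    rw [h8, hwlen, Nat.add_sub_cancel]
    exact h7
  · intro n
    have e0 := h0 n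
    have e1 := h0 (n + 1)
    have h1 := isChain_long (fun i j => dist (pt n (ltr i)) (pt n (ltr j)) ≤
      5 * eps n + 2 * eps (n + 1)) (fun i j hij => by rw [dist_comm]; exact hij)
      ((O n).map w) ?_ ?_
    · rw [List.flatMap_map] at h1
      exact h1
    · intro τ hτ
      obtain ⟨π, hπ, rfl⟩ := List.mem_map.1 hτ
      have hπA := (hO n π).1 hπ
      obtain ⟨W, h2, h3, h4⟩ := hAn n π hπA
      refine ⟨hwne π, List.isChain_iff_getElem.2 fun i hi => ?_, fun i _ => ?_⟩
      · rw [hwlen] at hi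
        have g1 := hwget π i (by omega)
        have g2 := hwget π (i + 1) (by omega)
        rw [List.getElem?_eq_getElem (by rw [hwlen]; omega)] at g1 g2
        rw [Option.some.inj g1, Option.some.inj g2]
        have g3 := chain_nr h2.chain (fun i j hij => by rw [dist_comm]; exact hij)
          (fun i => by rw [dist_self]; linarith) (h4 i (by omega)) (h4 (i + 1) (by omega))
          (h3.nr i (by omega))
        have g4 := hptd n π hπA i (by omega)
        have g5 := hptd n π hπA (i + 1) (by omega)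
        have g6 := dist_triangle4 (pt n (ltr (cd π i))) (c n (ltr (cd π i)))
          (c n (ltr (cd π (i + 1)))) (pt n (ltr (cd π (i + 1))))
        rw [dist_comm] at g5
        linarith
      · rw [dist_self]
        linarith
    · intro τ hτ σ hσ i j hi hj
      obtain ⟨π, hπ, rfl⟩ := List.mem_map.1 hτ
      obtain ⟨π', hπ', rfl⟩ := List.mem_map.1 hσ
      have key : ∀ π ∈ O n, ∀ i, (w π).head? = some i → dist (pt n (ltr i)) z ≤ 2 * eps n := by
        intro π hπ i hi
        have hπA := (hO n π).1 hπ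
        obtain ⟨W, h2, h3, h4⟩ := hAn n π hπA
        rw [List.head?_eq_getElem?, hwget π 0 (Nat.zero_le _)] at hi
        have hi' := Option.some.inj hi
        obtain ⟨l, h5, h6⟩ := h2.head
        have h7 := h4 0 (Nat.zero_le _)
        rw [h3.st, h5] at h7
        have h8 := Option.some.inj h7
        have h9 := hptd n π hπA 0 (Nat.zero_le _)
        rw [← hi']
        rw [h8] at h6
        exact (dist_triangle_right _ _ _).trans (by linarith)
      have k1 := key π hπ i hi
      have k2 := key π' hπ' j hj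
      exact (dist_triangle_right _ _ _).trans (by linarith)
  · intro n i hi
    obtain ⟨π, hπ, t, ht, rfl⟩ := hmem (n + 1) i hi
    obtain ⟨h1, h2⟩ := hAB n π hπ
    have hπt : π.tail ∈ A n := by
      rw [← hAΨ n]
      exact ⟨π, hπ, rfl⟩
    have h3 := h2 t ht
    have h4 := hptd (n + 1) π hπ t ht
    have h5 := hptd n π.tail hπt (ρ π t) (h1.le t ht)
    simp only [hr]
    rw [hR] at h3
    have e0 := h0 n
    have e1 := h0 (n + 1)
    have g6 := dist_triangle4 (pt (n + 1) (ltr (cd π t))) (c (n + 1) (ltr (cd π t)))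
      (c n (ltr (cd π.tail (ρ π t)))) (pt n (ltr (cd π.tail (ρ π t))))
    rw [dist_comm] at h3 h5
    linarith
  · intro y hy n
    obtain ⟨ω, hω, h1⟩ := hthr y hy
    have hπ : pf ω n ∈ A n := ⟨ω, hω, rfl⟩
    refine ⟨cd (pf ω n) (S (pf ω n)), ?_, ?_⟩
    · rw [hL]
      simp only [List.mem_flatMap, List.mem_append, List.mem_reverse, or_self]
      exact ⟨pf ω n, (hO n _).2 hπ, List.mem_of_getElem? (hwget _ _ le_rfl)⟩
    · obtain ⟨π0, h2, h3⟩ := pf_cons ω n
      have h4 := pf_gp (R := R) (fun n => (hω n).2) n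
      rw [h2] at h4
      have h5 := hβ (ω n) π0 h4
      rw [← h2] at h5
      obtain ⟨l, h6, h7⟩ := h1 n
      have h8 : ltr (cd (pf ω n) (S (pf ω n))) = l := by
        rw [hltr, h5.en]
        have h9 : (pf ω n).headD [] = ω n := by
          rw [h2]
          rfl
        rw [h9, h6]
        rfl
      have h9 := hptd n _ hπ _ le_rfl
      rw [h8] at h9 ⊢
      have e0 := h0 n
      have e1 := h0 (n + 1)
      exact (dist_triangle_right _ _ _).trans (by linarith)

end Pool.Agent.Lib.MP_40f35d_gt.Dn
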