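import Pool.Agent.Lib.MP_40f35d_gt.Dn.Wk
import Pool.Agent.Lib.MP_40f35d_gt.H.EngineMain

/-!
# Threads of linked words

* `Lk R W W'`: the words `W`, `W'` have readings which are synchronised along the relation `R`.
* `exists_dat`: for every finite sequence of words (the last one first) an interval with a reading
  of the last word, and the bonding maps of these intervals.
-/

set_option autoImplicit false

namespace Pool.Agent.Lib.MP_40f35d_gt.Dn

open Pool.Agent.Lib.MP_40f35d_gt.H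

/-- The words `W` and `W'` are linked: there are walks along `W` and `W'`, from the first to the
last position, and the letters read at the same time are related. -/
def Lk (R : ℕ → ℕ → Prop) (W W' : List ℕ) : Prop :=
  ∃ (M : ℕ) (q q' : ℕ → ℕ), Wk q M (W.length - 1) ∧ Wk q' M (W'.length - 1) ∧
    ∀ j, j ≤ M → ∃ l l', W[q j]? = some l ∧ W'[q' j]? = some l' ∧ R l l'

/-- The bonding map `ρ` from `[0, S']` to `[0, S]`, and the reading `β'` of the word `W'`. -/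
def Bn (R : ℕ → ℕ → Prop) (W W' : List ℕ) (S : ℕ) (β : ℕ → ℕ) (S' : ℕ) (β' ρ : ℕ → ℕ) : Prop :=
  Wk ρ S' S ∧ Wk β' S' (W'.length - 1) ∧
    ∀ j, j ≤ S' → ∃ l l', W[β (ρ j)]? = some l ∧ W'[β' j]? = some l' ∧ R l l'

theorem exists_bn {R : ℕ → ℕ → Prop} {W W' : List ℕ} {S : ℕ} {β : ℕ → ℕ}
    (h : Wk β S (W.length - 1)) (hl : Lk R W W') : ∃ S' β' ρ, Bn R W W' S β S' β' ρ := by
  obtain ⟨M, q, q', hq, hq', hR⟩ := hl
  obtain ⟨S', s, t, hs, ht, he⟩ := h.climb hq
  refine ⟨S', fun j => q' (t j), s, hs, hq'.comp ht, fun j hj => ?_⟩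
  rw [he j hj]
  exact hR (t j) (ht.le j hj)

/-- The words of a prefix are linked. -/
def GP (R : ℕ → ℕ → ℕ → Prop) : List (List ℕ) → Prop
  | [] => False
  | [_] => True
  | W' :: W :: π => Lk (R π.length) W W' ∧ GP R (W :: π)

/-- Intervals, readings and bonding maps for all prefixes. -/
theorem exists_dat (R : ℕ → ℕ → ℕ → Prop) :
    ∃ (S : List (List ℕ) → ℕ) (β ρ : List (List ℕ) → ℕ → ℕ),
      (∀ W π, GP R (W :: π) → Wk (β (W :: π)) (S (W :: π)) (W.length - 1)) ∧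
      ∀ W' W π, GP R (W' :: W :: π) → Bn (R π.length) W W' (S (W :: π)) (β (W :: π))
        (S (W' :: W :: π)) (β (W' :: W :: π)) (ρ (W' :: W :: π)) := by
  classical
  have key : ∀ (R : ℕ → ℕ → Prop) (W W' : List ℕ) (S : ℕ) (β : ℕ → ℕ),
      ∃ d : ℕ × (ℕ → ℕ) × (ℕ → ℕ), Wk β S (W.length - 1) → Lk R W W' →
        Bn R W W' S β d.1 d.2.1 d.2.2 := by
    intro R W W' S β
    by_cases h : Wk β S (W.length - 1) ∧ Lk R W W'
    · obtain ⟨S', β', ρ, h1⟩ := exists_bn h.1 h.2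
      exact ⟨(S', β', ρ), fun _ _ => h1⟩
    · exact ⟨(0, fun _ => 0, fun _ => 0), fun h1 h2 => absurd ⟨h1, h2⟩ h⟩
  choose d hd using key
  let D : List (List ℕ) → ℕ × (ℕ → ℕ) × (ℕ → ℕ) := fun π =>
    List.rec (0, (fun _ => 0), fun _ => 0)
      (fun W' π e => match π with
        | [] => (W'.length - 1, (fun t => t), fun _ => 0)
        | W :: π0 => d (R π0.length) W W' e.1 e.2.1) π
  have hD1 : ∀ W, D [W] = (W.length - 1, (fun t => t), fun _ => 0) := fun W => rfl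
  have hD2 : ∀ W' W π, D (W' :: W :: π) =
      d (R π.length) W W' (D (W :: π)).1 (D (W :: π)).2.1 := fun W' W π => rfl
  have hD : ∀ π W, GP R (W :: π) → Wk (D (W :: π)).2.1 (D (W :: π)).1 (W.length - 1) := by
    intro π
    induction π with
    | nil =>
      intro W _
      rw [hD1]
      exact Wk.id _
    | cons W π ih =>
      intro W' h
      have h1 := hd (R π.length) W W' _ _ (ih W h.2) h.1
      rw [← hD2] at h1
      exact h1.2.1
  refine ⟨fun π => (D π).1, fun π => (D π).2.1, fun π => (D π).2.2, fun W π h => hD π W h,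
    fun W' W π h => ?_⟩
  have h1 := hd (R π.length) W W' _ _ (hD π W h.2) h.1
  rw [← hD2] at h1
  exact h1

/-- The prefix of length `n + 1` of a sequence of words, the last one first. -/
def pf (ω : ℕ → List ℕ) : ℕ → List (List ℕ)
  | 0 => [ω 0]
  | n + 1 => ω (n + 1) :: pf ω n

theorem pf_length (ω : ℕ → List ℕ) (n : ℕ) : (pf ω n).length = n + 1 := by
  induction n with
  | zero => rfl
  | succ n ih => rw [pf, List.length_cons, ih]

theorem pf_cons (ω : ℕ → List ℕ) (n : ℕ) : ∃ π, pf ω n = ω n :: π ∧ π.length = n := by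
  rcases n with _ | n
  · exact ⟨[], rfl, rfl⟩
  · exact ⟨pf ω n, rfl, pf_length ω n⟩

theorem pf_tail (ω : ℕ → List ℕ) (n : ℕ) : (pf ω (n + 1)).tail = pf ω n := rfl

theorem pf_gp {R : ℕ → ℕ → ℕ → Prop} {ω : ℕ → List ℕ} (h : ∀ n, Lk (R n) (ω n) (ω (n + 1)))
    (n : ℕ) : GP R (pf ω n) := by
  induction n with
  | zero => exact trivial
  | succ n ih =>
    obtain ⟨π, h1, h2⟩ := pf_cons ω n
    rw [pf, h1]
    rw [h1] at ih
    refine ⟨?_, ih⟩
    rw [h2]
    exact h n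

theorem pf_finite (F : ℕ → Set (List ℕ)) (hF : ∀ n, (F n).Finite) (n : ℕ) :
    {π | ∃ ω : ℕ → List ℕ, (∀ k, k ≤ n → ω k ∈ F k) ∧ pf ω n = π}.Finite := by
  induction n with
  | zero =>
    refine ((hF 0).image fun W => [W]).subset ?_
    rintro _ ⟨ω, h1, rfl⟩
    exact ⟨ω 0, h1 0 le_rfl, rfl⟩
  | succ n ih =>
    refine (Set.Finite.image2 (fun W π => W :: π) (hF (n + 1)) ih).subset ?_
    rintro _ ⟨ω, h1, rfl⟩
    exact ⟨ω (n + 1), h1 (n + 1) le_rfl, pf ω n, ⟨ω, fun k hk => h1 k (by omega), rfl⟩, rfl⟩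

/-- König's lemma for sequences of words. -/
theorem konig (F : ℕ → Set (List ℕ)) (hF : ∀ n, (F n).Finite)
    (Q : ℕ → List ℕ → List ℕ → Prop) (h : ∀ m, ∃ ω : ℕ → List ℕ, (∀ n, n ≤ m → ω n ∈ F n) ∧
      ∀ n, n < m → Q n (ω n) (ω (n + 1))) :
    ∃ ω : ℕ → List ℕ, (∀ n, ω n ∈ F n) ∧ ∀ n, Q n (ω n) (ω (n + 1)) := by
  obtain ⟨τ, hτ⟩ := thread (fun m => {π | ∃ ω : ℕ → List ℕ, (∀ n, n ≤ m → ω n ∈ F n) ∧
    (∀ n, n < m → Q n (ω n) (ω (n + 1))) ∧ pf ω m = π})
    (fun m => (pf_finite F hF m).subset fun π ⟨ω, h1, _, h3⟩ => ⟨ω, h1, h3⟩)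
    (fun m => by
      obtain ⟨ω, h1, h2⟩ := h m
      exact ⟨pf ω m, ω, h1, h2, rfl⟩)
    (fun _ => List.tail) (by
      rintro m _ ⟨ω, h1, h2, rfl⟩
      exact ⟨ω, fun n hn => h1 n (by omega), fun n hn => h2 n (by omega), rfl⟩)
  set ω : ℕ → List ℕ := fun n => (τ n).headD [] with hω
  have hhead : ∀ (v : ℕ → List ℕ) (n : ℕ), (pf v n).headD [] = v n := by
    intro v n
    obtain ⟨π, h1, -⟩ := pf_cons v n
    rw [h1]
    rfl
  refine ⟨ω, fun n => ?_, fun n => ?_⟩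
  · obtain ⟨⟨v, h1, -, h3⟩, -⟩ := hτ n
    have h4 : ω n = v n := by
      rw [hω]
      simp only
      rw [← h3, hhead]
    rw [h4]
    exact h1 n le_rfl
  · obtain ⟨⟨v, -, h2, h3⟩, -⟩ := hτ (n + 1)
    obtain ⟨-, h5⟩ := hτ n
    have h4 : ω (n + 1) = v (n + 1) := by
      rw [hω]
      simp only
      rw [← h3, hhead]
    have h6 : ω n = v n := by
      rw [hω]
      simp only
      rw [← h5, ← h3, pf_tail, hhead]
    rw [h4, h6]
    exact h2 n (by omega)

end Pool.Agent.Lib.MP_40f35d_gt.Dn
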