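import Pool.Agent.Lib.MP_40f35d_gt.H.Asm
import Pool.Agent.Lib.MP_40f35d_gt.Gs.Mc

/-!
# Walks, readings and long words
-/

set_option autoImplicit false

namespace Pool.Agent.Lib.MP_40f35d_gt.Dn

open Pool.Agent.Lib.MP_40f35d_gt.H

/-- `a` is a walk on `[0, k]`, with the times `0, ..., L`, from `0` to `k`. -/
structure Wk (a : ℕ → ℕ) (L k : ℕ) : Prop where
  st : a 0 = 0
  en : a L = k
  le : ∀ r, r ≤ L → a r ≤ k
  nr : ∀ r, r < L → Nr (a r) (a (r + 1))

theorem Wk.id (k : ℕ) : Wk (fun t => t) k k :=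
  ⟨rfl, rfl, fun _ h => h, fun r _ => ⟨by omega, by omega⟩⟩

/-- The values at near times are near. -/
theorem Wk.nr' {a : ℕ → ℕ} {L k i j : ℕ} (h : Wk a L k) (hi : i ≤ L) (hj : j ≤ L)
    (hn : Nr i j) : Nr (a i) (a j) := by
  obtain ⟨h1, h2⟩ := hn
  rcases lt_trichotomy i j with h3 | h3 | h3
  · have e : j = i + 1 := by omega
    subst e
    exact h.nr i (by omega)
  · subst h3
    exact ⟨by omega, by omega⟩
  · have e : i = j + 1 := by omega
    subst e
    have h4 := h.nr j (by omega)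
    exact ⟨h4.2, h4.1⟩

theorem Wk.comp {a s : ℕ → ℕ} {M L k : ℕ} (h : Wk a L k) (hs : Wk s M L) :
    Wk (fun t => a (s t)) M k := by
  refine ⟨?_, ?_, ?_, ?_⟩
  · rw [hs.st, h.st]
  · rw [hs.en, h.en]
  · intro r hr
    exact h.le _ (hs.le r hr)
  · intro r hr
    exact h.nr' (hs.le r (by omega)) (hs.le (r + 1) (by omega)) (hs.nr r hr)

/-- A walk crosses every edge. -/
theorem Wk.cross {a : ℕ → ℕ} {L k i : ℕ} (h : Wk a L k) (hi : i < k) :
    ∃ r, r < L ∧ a r = i ∧ a (r + 1) = i + 1 := by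
  classical
  have h0 : a 0 ≤ i := by
    rw [h.st]
    exact Nat.zero_le i
  set r := Nat.findGreatest (fun r => a r ≤ i) L with hr
  have h1 : a r ≤ i := Nat.findGreatest_spec (P := fun r => a r ≤ i) (Nat.zero_le L) h0
  have h2 : r ≤ L := Nat.findGreatest_le L
  have h3 : r ≠ L := by
    intro e
    rw [e, h.en] at h1
    omega
  have h4 : ¬ a (r + 1) ≤ i :=
    Nat.findGreatest_is_greatest (P := fun r => a r ≤ i) (n := L) (k := r + 1) (by omega)
      (by omega)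
  obtain ⟨h5, h6⟩ := h.nr r (by omega)
  exact ⟨r, by omega, by omega, by omega⟩

/-- A walk takes every value. -/
theorem Wk.hit {a : ℕ → ℕ} {L k i : ℕ} (h : Wk a L k) (hi : i ≤ k) : ∃ r, r ≤ L ∧ a r = i := by
  rcases Nat.lt_or_ge i k with h1 | h1
  · obtain ⟨r, h2, h3, -⟩ := h.cross h1
    exact ⟨r, h2.le, h3⟩
  · exact ⟨L, le_rfl, by rw [h.en]; omega⟩

/-- Two walks can be synchronised. -/
theorem Wk.climb {a b : ℕ → ℕ} {L L' k : ℕ} (ha : Wk a L k) (hb : Wk b L' k) :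
    ∃ (M : ℕ) (s t : ℕ → ℕ), Wk s M L ∧ Wk t M L' ∧ ∀ j, j ≤ M → a (s j) = b (t j) := by
  have h1 : Gs.Syn (fun t => (a t : ℤ)) 0 L (fun t => (b t : ℤ)) 0 L' := by
    refine Gs.climb (lo := 0) (hi := (k : ℤ)) (Nat.zero_le _) (Nat.zero_le _) ?_ ?_ ?_ ?_ ?_ ?_
      ?_ ?_
    · intro t _ ht
      obtain ⟨h1, h2⟩ := ha.nr t ht
      rw [abs_le]
      constructor <;> omega
    · intro t _ ht
      obtain ⟨h1, h2⟩ := hb.nr t ht
      rw [abs_le]
      constructor <;> omega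
    · intro t _ ht
      have h1 := ha.le t ht
      constructor <;> omega
    · intro t _ ht
      have h1 := hb.le t ht
      constructor <;> omega
    · simp only [ha.st, Nat.cast_zero]
    · simp only [ha.en]
    · simp only [hb.st, Nat.cast_zero]
    · simp only [hb.en]
  obtain ⟨M, s, t, h2, h3, h4, h5, h6, h7⟩ := h1.seq
  refine ⟨M, s, t, ⟨h2, h4, fun r hr => (h6 r hr).2.1, fun r hr => ?_⟩,
    ⟨h3, h5, fun r hr => (h6 r hr).2.2.2.1, fun r hr => ?_⟩, fun j hj => ?_⟩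
  · exact ⟨(h7 r hr).1, (h7 r hr).2.1⟩
  · exact ⟨(h7 r hr).2.2.1, (h7 r hr).2.2.2⟩
  · exact_mod_cast (h6 j hj).2.2.2.2

/-- The word read along a walk. -/
theorem rd_walk {W : List ℕ} (g : ℕ → ℕ) (ρ : ℕ → ℕ) (M : ℕ)
    (h : ∀ t, t ≤ M → W[ρ t]? = some (g t)) (hn : ∀ t, t < M → Nr (ρ t) (ρ (t + 1))) :
    Rd W ((List.range (M + 1)).map g) (ρ 0) (ρ M) := by
  induction M with
  | zero => exact Rd.one (g 0) (ρ 0) (h 0 le_rfl)
  | succ M ih =>
    rw [List.range_succ, List.map_append, List.map_singleton]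
    exact (ih (fun t ht => h t (by omega)) fun t ht => hn t (by omega)).append
      (Rd.one (g (M + 1)) (ρ (M + 1)) (h (M + 1) le_rfl)) (hn M (by omega))

/-- The long words of an inverse sequence of words. -/
theorem rd_long' {T : Type} (r : ℕ → ℕ) (w : T → List ℕ) (O : List T) (hO : O ≠ [])
    (c : T → List T) (h : ∀ τ ∈ O, w τ ≠ [] ∧ c τ ≠ [] ∧
      ∀ τ' ∈ c τ, w τ' ≠ [] ∧ Rd (w τ) ((w τ').map r) 0 ((w τ).length - 1)) :
    Rd (O.flatMap fun σ => w σ ++ (w σ).reverse)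
      (((O.flatMap c).flatMap fun σ => w σ ++ (w σ).reverse).map r) 0
      ((O.flatMap fun σ => w σ ++ (w σ).reverse).length - 1) := by
  induction O with
  | nil => exact absurd rfl hO
  | cons τ O ih =>
    obtain ⟨h1, h2, h3⟩ := h τ (by simp)
    have h4 := rd_block r (w τ) h1 ((c τ).map w) (by simpa using h2) (by
      intro τ' hτ'
      obtain ⟨σ, hσ, rfl⟩ := List.mem_map.1 hτ'
      exact h3 σ hσ)
    rw [List.flatMap_map] at h4
    by_cases hO' : O = []
    · subst hO'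
      simpa using h4
    · have h5 := ih hO' fun τ' hτ' => h τ' (List.mem_cons_of_mem _ hτ')
      rw [List.flatMap_cons, List.flatMap_cons, List.flatMap_append, List.map_append]
      refine Rd.join (by simp [h1]) ?_ h4 h5
      obtain ⟨σ, hσ⟩ := List.exists_mem_of_ne_nil O hO'
      intro h6
      rw [List.flatMap_eq_nil_iff] at h6
      have h7 := h6 σ hσ
      rw [List.append_eq_nil_iff] at h7
      exact (h σ (List.mem_cons_of_mem _ hσ)).1 h7.1

end Pool.Agent.Lib.MP_40f35d_gt.Dn
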